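import Pool.Agent.Helper96.PB.Defs
import Pool.Agent.Helper66.NE.Good

/-!
# PB, piece A4: all types of bad inputs together
-/

namespace Pool.Agent.Helper92.PB

open Finset Pool.Agent.Helper19.NF Pool.Agent.Helper74.NW Pool.Agent.Helper99.NQ Pool.Agent.Helper96.PB
open Pool.Agent.Helper74.NE (fine fine_apply)
open Pool.Agent.Helper66.NE (card_le_sum)

variable {n D m S : ℕ} [NeZero m] {F B Z : Type} [Field F] [Fintype F] [AddCommGroup B] [Module F B] [Fintype B]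

omit [Fintype F] in
theorem inD_congr {P : NProg (B × Word D m B) F Z S} {g : Fin D → Equiv.Perm (Fin n)}
    {x0 : Fin n × Fin m → B} {h T i : ℕ} {s p : Fin S} {k1 k2 : ℕ} {A : Finset (Fin n)}
    {h1 h2 h1' h2' : Fin n → Fin D × Fin m} {I : B × Word D m B → F}
    (H : InD P g x0 h T i s p k1 k2 A h1 h2 I) (e1 : ∀ u ∈ A, h1' u = h1 u) (e2 : ∀ u ∈ A, h2' u = h2 u) :
    InD P g x0 h T i s p k1 k2 A h1' h2' I := by
  obtain ⟨c1, c2, t, r1, r2, l1, l2, hT, hf, hm1, hm2⟩ := H.run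
  refine ⟨H.cf, c1, c2, t, r1, r2, l1, l2, hT, hf, fun u hu => ?_, fun u hu => ?_⟩
  · have := hm1 u hu
    simp only [pos] at this ⊢
    rwa [e1 u hu]
  · have := hm2 u hu
    simp only [pos] at this ⊢
    rwa [e2 u hu]

/-- The function on the nodes with the given values on `A`. -/
noncomputable def ext {X : Type} {a : ℕ} (ha : 1 ≤ a) (A : Finset (Fin n)) (hA : A.card = a) (r : Fin a → X)
    (u : Fin n) : X :=
  if hu : u ∈ A then r ((A.orderIsoOfFin hA).symm ⟨u, hu⟩) else r ⟨0, ha⟩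

theorem ext_eq {X : Type} {a : ℕ} (ha : 1 ≤ a) (A : Finset (Fin n)) (hA : A.card = a) (f : Fin n → X)
    {u : Fin n} (hu : u ∈ A) : ext ha A hA (fun j => f (A.orderIsoOfFin hA j)) u = f u := by
  rw [ext, dif_pos hu, OrderIso.apply_symm_apply]

theorem bad_bound_of (P : NProg (B × Word D m B) F Z S) (g : Fin D → Equiv.Perm (Fin n))
    (x0 : Fin n × Fin m → B) (h T a R : ℕ) (ha : 1 ≤ a) {δ : ℝ}
    (H1 : ∀ I : B × Word D m B → F, CF (fine g) x0 R (tab I) → (∃ s c t, P.Run I s c t ∧ c.length ≤ 2 ^ R ∧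
        Fintype.card (B × Word D m B) ≤ (free c).card + T ∧ a ≤ (comp g x0 h R I (free c)).card) →
      ∃ i < R, ∃ s' p k1 k2 A h1 h2, k1 ≤ 2 ^ R ∧ k2 ≤ 2 ^ R ∧ A.card = a ∧ InD P g x0 h T i s' p k1 k2 A h1 h2 I)
    (H3 : ∀ i s p k1 k2 A h1 h2, A.card = a →
      (Nat.card {I // InD P g x0 h T i s p k1 k2 A h1 h2 I} : ℝ) ≤ δ * Nat.card (B × Word D m B → F)) :
    (Nat.card {I // CF (fine g) x0 R (tab I) ∧ ∃ s c t, P.Run I s c t ∧ c.length ≤ 2 ^ R ∧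
        Fintype.card (B × Word D m B) ≤ (free c).card + T ∧ a ≤ (comp g x0 h R I (free c)).card} : ℝ) ≤
      R * n.choose a * ((D * m) ^ a) ^ 2 * (S : ℝ) ^ 2 * (2 ^ R + 1) ^ 2 * δ * Nat.card (B × Word D m B → F) := by
  classical
  let V : Type := B × Word D m B → F
  let τ : Type := Fin R × {A : Finset (Fin n) // A.card = a} × (Fin a → Fin D × Fin m) ×
    (Fin a → Fin D × Fin m) × (Fin S × Fin S) × (Fin (2 ^ R + 1) × Fin (2 ^ R + 1))
  have hty : ∀ I : V, (CF (fine g) x0 R (tab I) ∧ ∃ s c t, P.Run I s c t ∧ c.length ≤ 2 ^ R ∧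
        Fintype.card (B × Word D m B) ≤ (free c).card + T ∧ a ≤ (comp g x0 h R I (free c)).card) →
      ∃ x : τ, InD P g x0 h T x.1 x.2.2.2.2.1.1 x.2.2.2.2.1.2 x.2.2.2.2.2.1 x.2.2.2.2.2.2 x.2.1.1
        (ext ha x.2.1.1 x.2.1.2 x.2.2.1) (ext ha x.2.1.1 x.2.1.2 x.2.2.2.1) I := by
    rintro I ⟨hI, hI'⟩
    obtain ⟨i, hi, s', p, k1, k2, A, h1, h2, hk1, hk2, hA, hD⟩ := H1 I hI hI'
    exact ⟨(⟨i, hi⟩, ⟨A, hA⟩, fun j => h1 (A.orderIsoOfFin hA j), fun j => h2 (A.orderIsoOfFin hA j), (s', p),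
      (⟨k1, Nat.lt_succ_of_le hk1⟩, ⟨k2, Nat.lt_succ_of_le hk2⟩)),
      inD_congr hD (fun u hu => ext_eq ha A hA h1 hu) fun u hu => ext_eq ha A hA h2 hu⟩
  calc (Nat.card {I : V // CF (fine g) x0 R (tab I) ∧ ∃ s c t, P.Run I s c t ∧ c.length ≤ 2 ^ R ∧
        Fintype.card (B × Word D m B) ≤ (free c).card + T ∧ a ≤ (comp g x0 h R I (free c)).card} : ℝ)
      ≤ ((∑ x : τ, Nat.card {I : V //
          InD P g x0 h T x.1 x.2.2.2.2.1.1 x.2.2.2.2.1.2 x.2.2.2.2.2.1 x.2.2.2.2.2.2 x.2.1.1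
            (ext ha x.2.1.1 x.2.1.2 x.2.2.1) (ext ha x.2.1.1 x.2.1.2 x.2.2.2.1) I} : ℕ) : ℝ) := by
        exact_mod_cast card_le_sum hty
    _ = ∑ x : τ, (Nat.card {I : V //
          InD P g x0 h T x.1 x.2.2.2.2.1.1 x.2.2.2.2.1.2 x.2.2.2.2.2.1 x.2.2.2.2.2.2 x.2.1.1
            (ext ha x.2.1.1 x.2.1.2 x.2.2.1) (ext ha x.2.1.1 x.2.1.2 x.2.2.2.1) I} : ℝ) := by
        push_cast
        rfl
    _ ≤ ∑ _x : τ, δ * Nat.card V := Finset.sum_le_sum fun x _ => H3 _ _ _ _ _ _ _ _ x.2.1.2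
    _ = R * n.choose a * ((D * m) ^ a) ^ 2 * (S : ℝ) ^ 2 * (2 ^ R + 1) ^ 2 * δ * Nat.card V := by
        rw [Finset.sum_const, Finset.card_univ, nsmul_eq_mul]
        have hc : Fintype.card τ = R * (n.choose a * ((D * m) ^ a * ((D * m) ^ a * ((S * S) *
            ((2 ^ R + 1) * (2 ^ R + 1)))))) := by
          show Fintype.card (Fin R × {A : Finset (Fin n) // A.card = a} × (Fin a → Fin D × Fin m) ×
            (Fin a → Fin D × Fin m) × (Fin S × Fin S) × (Fin (2 ^ R + 1) × Fin (2 ^ R + 1))) = _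
          simp only [Fintype.card_prod, Fintype.card_fin, Fintype.card_fun, Fintype.card_finset_len]
        rw [hc]
        push_cast
        ring

end Pool.Agent.Helper92.PB
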