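import Pool.Agent.Helper92.PB.A4
import Pool.Agent.Helper6.PB.Rec
import Pool.Agent.Helper89.PB.Card

/-!
# PB, piece A4: the bound for the bad inputs
-/

namespace Pool.Agent.Helper92.PB

open Finset Pool.Agent.Helper19.NF Pool.Agent.Helper74.NW Pool.Agent.Helper99.NQ Pool.Agent.Helper96.PB
open Pool.Agent.Helper74.NE (fine fine_apply)
open Pool.Agent.Helper96.PH (Det)
open Pool.Agent.Helper74.NS (Expands)

variable {n D m S : ℕ} [NeZero m] {F B Z : Type} [Field F] [Fintype F] [AddCommGroup B] [Module F B] [Fintype B]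

/-- A4: all types together. -/
theorem bad_bound (P : NProg (B × Word D m B) F Z S) (hP : Det P) (g : Fin D → Equiv.Perm (Fin n))
    (x0 : Fin n × Fin m → B) (h T a R : ℕ) (hX : Expands g a) (ha : 1 ≤ a) (hh : 0 < h)
    (hL : h + 1 ≤ Fintype.card (Word D m B)) (η : ℝ)
    (hη : η = 1 + (1 - (T : ℝ) / Fintype.card (B × Word D m B) - (h : ℝ) / Fintype.card (Word D m B)) / 2)
    (hη1 : 1 ≤ η) :
    (Nat.card {I // CF (fine g) x0 R (tab I) ∧ ∃ s c t, P.Run I s c t ∧ c.length ≤ 2 ^ R ∧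
        Fintype.card (B × Word D m B) ≤ (free c).card + T ∧ a ≤ (comp g x0 h R I (free c)).card} : ℝ) ≤
      errA n D m a R S ((h : ℝ) / Fintype.card (Word D m B)) η * Nat.card (B × Word D m B → F) := by
  have h1 := bad_bound_of P g x0 h T a R ha
    (δ := 2 * (1 / ((h : ℝ) / Fintype.card (Word D m B))) ^ (2 * a) / η ^ (m * a))
    (fun I hI ⟨s, c, t, h1, h2, h3, h4⟩ =>
      Pool.Agent.Helper6.PB.exists_inD P g x0 h T a R hX ha hL hI h1 h2 h3 h4)
    (fun i s p k1 k2 A h1 h2 hA => by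
      have := Pool.Agent.Helper89.PB.card_inD P hP g x0 h T i s p k1 k2 A h1 h2 hh η hη hη1
      rwa [hA] at this)
  refine h1.trans (le_of_eq ?_)
  rw [errA]

end Pool.Agent.Helper92.PB
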